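import Pool.Agent.H4.OS.One

/-!
# Stabilizers of axes in trees with trivial edge stabilizers
-/

set_option autoImplicit false

namespace Pool.Agent.H4.OS

open SimpleGraph Pool.Agent.Helper270.HNN Pool.Agent.Helper270.Tree Pool.Agent.X176.FJ

/-- `r` is not a proper power -/
def NP {G : Type} [Group G] (r : G) : Prop := ∀ (s : G) (m : ℤ), r = s ^ m → m = 1 ∨ m = -1

theorem NP.inv {G : Type} [Group G] {r : G} (h : NP r) : NP r⁻¹ := by
  intro s m hm
  have h1 : r = s ^ (-m) := by rw [zpow_neg, ← hm, inv_inv]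
  rcases h s (-m) h1 with h2 | h2
  · right; omega
  · left; omega

section axis

variable {G V : Type} [Group G] [MulAction G V] {T : SimpleGraph V}

theorem axis_zpow {g : G} {L : ℤ → V} {l : ℕ} (hax : IsAxis T g L l) {k : ℤ} (hk : k ≠ 0) :
    ∃ L' : ℤ → V, IsAxis T (g ^ k) L' (k.natAbs * l) ∧ ∀ i, ∃ j, L' i = L j := by
  have hpos := hax.pos
  rcases lt_or_gt_of_ne hk with h | h
  · refine ⟨fun i => L (-i), ⟨hax.line.reverse, Nat.mul_pos (by omega) hpos, fun i => ?_⟩,
      fun i => ⟨-i, rfl⟩⟩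
    show g ^ k • L (-i) = L (-(i + _))
    rw [hax.smul_zpow]
    congr 1
    have : ((k.natAbs : ℕ) : ℤ) = -k := by omega
    rw [Nat.cast_mul, this]; ring
  · refine ⟨L, ⟨hax.line, Nat.mul_pos (by omega) hpos, fun i => ?_⟩, fun i => ⟨i, rfl⟩⟩
    rw [hax.smul_zpow]
    congr 1
    have : ((k.natAbs : ℕ) : ℤ) = k := by omega
    rw [Nat.cast_mul, this]

theorem disp_le (h : TreeAct G T) {g : G} {L : ℤ → V} {l : ℕ} (hax : IsAxis T g L l) {k : ℤ}
    (hk : k ≠ 0) (z : V) : k.natAbs * l ≤ T.dist z (g ^ k • z) := by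
  obtain ⟨L', hL', _⟩ := axis_zpow hax hk
  obtain ⟨i, _, h2⟩ := h.proj_between hL' z
  omega

theorem disp_line (h : TreeAct G T) {g : G} {L : ℤ → V} {l : ℕ} (hax : IsAxis T g L l) (k i : ℤ) :
    T.dist (L i) (g ^ k • L i) = k.natAbs * l := by
  rw [hax.smul_zpow, hax.line.dist h.isTree]
  have e : (i - (i + k * (l : ℤ))) = -(k * l) := by ring
  rw [e, Int.natAbs_neg, Int.natAbs_mul, Int.natAbs_natCast]

/-- elements which conjugate a power of `r` to a power of `r` preserve the axis -/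
theorem axis_inv (h : TreeAct G T) {r : G} {L : ℤ → V} {l : ℕ} (hax : IsAxis T r L l) {g : G}
    {p q : ℤ} (hp : p ≠ 0) (hq : q ≠ 0) (hg : g * r ^ p * g⁻¹ = r ^ q) (i : ℤ) :
    ∃ j, g • L i = L j := by
  have e1 : ∀ i, T.dist (g • L i) (r ^ q • g • L i) = p.natAbs * l := by
    intro i
    have : r ^ q • g • L i = g • r ^ p • L i := by
      rw [← hg, mul_smul, mul_smul, inv_smul_smul]
    rw [this, h.dist_smul, disp_line h hax]
  have e2 : T.dist (g⁻¹ • L 0) (r ^ p • g⁻¹ • L 0) = q.natAbs * l := by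
    have : r ^ p • g⁻¹ • L 0 = g⁻¹ • r ^ q • L 0 := by
      rw [← hg, mul_smul, mul_smul, inv_smul_smul]
    rw [this, h.dist_smul, disp_line h hax]
  have e3 := disp_le h hax hp (g⁻¹ • L 0)
  have e4 := disp_le h hax hq (g • L 0)
  rw [e2] at e3
  rw [e1] at e4
  have e5 : p.natAbs * l = q.natAbs * l := le_antisymm e3 e4
  obtain ⟨L', hL', hLL⟩ := axis_zpow hax hq
  obtain ⟨j, hj⟩ := h.mem_axis hL' (z := g • L i) (by rw [e1, e5])
  obtain ⟨j', hj'⟩ := hLL j
  exact ⟨j', hj.trans hj'⟩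

variable (hfree : ∀ x y : V, T.Adj x y → ∀ g : G, g • x = x → g • y = y → g = 1)
include hfree

theorem axis_eq {L : ℤ → V} (hL : IsLine T L) {g g' : G} {c : ℤ} (h1 : ∀ i, g • L i = L (c + i))
    (h2 : ∀ i, g' • L i = L (c + i)) : g = g' := by
  have h3 : ∀ i, (g'⁻¹ * g) • L i = L i := by
    intro i
    rw [mul_smul, h1, ← h2, inv_smul_smul]
  have h4 := hfree (L 0) (L (0 + 1)) (hL.adj 0) (g'⁻¹ * g) (h3 _) (h3 _)
  exact (inv_mul_eq_one.1 h4).symm

/-- in a torsion-free group the stabilizer of a line acts by translations -/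
theorem axis_trans (h : TreeAct G T) (htf : IsTF G) {L : ℤ → V} (hL : IsLine T L) {g : G}
    (hg : ∀ i, ∃ j, g • L i = L j) : ∃ c, ∀ i, g • L i = L (c + i) := by
  rcases h.map_line hL hg with h1 | ⟨c, hc⟩
  · exact h1
  · exfalso
    have h2 : ∀ i, (g ^ 2) • L i = L i := by
      intro i
      rw [pow_two, mul_smul, hc, hc]
      congr 1; ring
    have h3 := hfree (L 0) (L (0 + 1)) (hL.adj 0) (g ^ 2) (h2 _) (h2 _)
    have h4 := htf g 2 two_pos h3
    have h5 := hc 0
    have h6 := hc 1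
    rw [h4, one_smul] at h5 h6
    have h7 := hL.injective h.isTree h5
    have h8 := hL.injective h.isTree h6
    omega

omit hfree in
theorem zpow_trans {L : ℤ → V} {g : G} {c : ℤ} (h1 : ∀ i, g • L i = L (c + i)) (k i : ℤ) :
    g ^ k • L i = L (k * c + i) := by
  induction k using Int.induction_on generalizing i with
  | zero => simp
  | succ k ih => rw [zpow_add_one, mul_smul, h1, ih]; congr 1; ring
  | pred k ih =>
    rw [zpow_sub_one, mul_smul]
    have : g⁻¹ • L i = L (i - c) := by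
      rw [inv_smul_eq_iff, h1]; congr 1; ring
    rw [this, ih]; congr 1; ring

theorem mem_of_trans {L : ℤ → V} {l : ℕ} {r : G} (hax : IsAxis T r L l) (hr : NP r) {g : G} {c : ℤ}
    (hg : ∀ i, g • L i = L (c + i)) : g ∈ Subgroup.zpowers r := by
  have hr' : ∀ i, r • L i = L ((l : ℤ) + i) := by
    intro i
    rw [hax.smul, add_comm]
  obtain ⟨a, b, hab⟩ : ∃ a b : ℤ, (Int.gcd c l : ℤ) = c * a + l * b :=
    ⟨_, _, Int.gcd_eq_gcd_ab c l⟩
  obtain ⟨e, he⟩ : (Int.gcd c l : ℤ) ∣ l := Int.gcd_dvd_right c l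
  obtain ⟨f, hf⟩ : (Int.gcd c l : ℤ) ∣ c := Int.gcd_dvd_left c l
  set d : ℤ := (Int.gcd c l : ℤ) with hd
  have hs : ∀ i, (g ^ a * r ^ b) • L i = L (d + i) := by
    intro i
    rw [mul_smul, zpow_trans hr', zpow_trans hg, hab]
    congr 1; ring
  have h1 : r = (g ^ a * r ^ b) ^ e := by
    refine axis_eq hfree hax.line (c := l) hr' fun i => ?_
    rw [zpow_trans hs]
    congr 1
    rw [he]; ring
  obtain ⟨k, hk⟩ : ∃ k : ℤ, c = k * l := by
    rcases hr _ e h1 with h2 | h2
    · refine ⟨f, ?_⟩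
      rw [hf, he, h2]; ring
    · refine ⟨-f, ?_⟩
      rw [hf, he, h2]; ring
  refine ⟨k, ?_⟩
  show r ^ k = g
  refine axis_eq hfree hax.line (c := c) (fun i => ?_) hg
  rw [zpow_trans hr', hk]

omit hfree in
/-- roots -/
theorem exists_root (h : TreeAct G T) : ∀ (l : ℕ) (r : G) (L : ℤ → V), IsAxis T r L l →
    ∃ (ρ : G) (k : ℕ), 0 < k ∧ r = ρ ^ k ∧ NP ρ ∧ ∀ v : V, ρ • v ≠ v := by
  intro l
  induction l using Nat.strong_induction_on with
  | _ l ih =>
    intro r L hax
    have hrv : ∀ v : V, r • v ≠ v := by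
      intro v hv
      have h1 := disp_le h hax one_ne_zero v
      rw [zpow_one, hv, SimpleGraph.dist_self] at h1
      have := hax.pos
      simp at h1
      omega
    by_cases hnp : NP r
    · exact ⟨r, 1, one_pos, (pow_one r).symm, hnp, hrv⟩
    · unfold NP at hnp
      push Not at hnp
      obtain ⟨s, m, hm, hm1, hm2⟩ := hnp
      have hm0 : m ≠ 0 := by
        rintro rfl
        rw [zpow_zero] at hm
        obtain ⟨v⟩ := h.isTree.connected.nonempty
        exact hrv v (by rw [hm, one_smul])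
      have hs : ∀ v : V, s • v ≠ v := by
        intro v hv
        apply hrv v
        rw [hm]
        exact zpow_mem (show s ∈ MulAction.stabilizer G v from hv) m
      obtain ⟨L', l', hax'⟩ := h.exists_axis hs
      have h1 := disp_le h hax' hm0 (L 0)
      rw [← hm] at h1
      have h2 := disp_line h hax 1 0
      rw [zpow_one] at h2
      rw [h2] at h1
      have hpos := hax'.pos
      have h3 : 2 ≤ m.natAbs := by omega
      have h4 : l' < l := by
        simp at h1
        nlinarith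
      obtain ⟨ρ, k, hk, hρ, hnρ, hρv⟩ := ih l' h4 s L' hax'
      rcases lt_or_gt_of_ne hm0 with h5 | h5
      · refine ⟨ρ⁻¹, k * m.natAbs, Nat.mul_pos hk (by omega), ?_, hnρ.inv, ?_⟩
        · rw [hm, hρ, ← zpow_natCast, ← zpow_natCast, ← zpow_mul, inv_zpow', Nat.cast_mul]
          congr 1
          have : ((m.natAbs : ℕ) : ℤ) = -m := by omega
          rw [this]; ring
        · intro v hv
          rw [inv_smul_eq_iff] at hv
          exact hρv v hv.symm
      · refine ⟨ρ, k * m.natAbs, Nat.mul_pos hk (by omega), ?_, hnρ, hρv⟩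
        rw [hm, hρ, ← zpow_natCast, ← zpow_natCast, ← zpow_mul, Nat.cast_mul]
        congr 2
        omega

end axis

end Pool.Agent.H4.OS
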