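import Pool.Agent.H4.OS.Axis

/-!
# The free product with an infinite cyclic group, and overgroups of the factor
-/

set_option autoImplicit false

namespace Pool.Agent.H4.OS

open HNNExtension SimpleGraph Pool.Agent.Helper270.HNN Pool.Agent.Helper270.Tree
open Pool.Agent.X176.FJ Pool.Agent.H4.SE HNNExtension.NormalWord

/-- the free product of `X` and an infinite cyclic group, as an HNN extension -/
abbrev FY (X : Type) [Group X] : Type :=
  HNNExtension X (⊥ : Subgroup X) (⊥ : Subgroup X) (MulEquiv.refl _)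

/-- the isomorphism of the trivial subgroups -/
abbrev pf (X : Type) [Group X] : (⊥ : Subgroup X) ≃* (⊥ : Subgroup X) := MulEquiv.refl _

/-- homomorphisms of the free product -/
def ev {X D : Type} [Group X] [Group D] (u : X →* D) (y : D) : FY X →* D :=
  HNNExtension.lift u y (by
    rintro ⟨a, ha⟩
    have h1 : a = 1 := Subgroup.mem_bot.1 ha
    subst h1
    show y * u 1 = u 1 * y
    rw [map_one, mul_one, one_mul])

theorem ev_of {X D : Type} [Group X] [Group D] (u : X →* D) (y : D) (x : X) :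
    ev u y (of x) = u x := HNNExtension.lift_of _ _ _ _

theorem ev_t {X D : Type} [Group X] [Group D] (u : X →* D) (y : D) : ev u y t = y :=
  HNNExtension.lift_t _ _ _

theorem ev_comp {X D D' : Type} [Group X] [Group D] [Group D'] (u : X →* D) (y : D) (f : D →* D') :
    f.comp (ev u y) = ev (f.comp u) (f y) := by
  apply HNNExtension.hom_ext
  · ext x
    show f (ev u y (of x)) = ev (f.comp u) (f y) (of x)
    rw [ev_of, ev_of]; rfl
  · show f (ev u y t) = ev (f.comp u) (f y) t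
    rw [ev_t, ev_t]

theorem edge_free {X : Type} [Group X] (x y : Vert (pf X)) (h : (graph (pf X)).Adj x y) (g : FY X)
    (hx : g • x = x) (hy : g • y = y) : g = 1 := by
  have key : ∀ γ : FY X, g • (γ • (vt 1 : Vert (pf X))) = γ • vt 1 →
      g • (γ • (vt t⁻¹ : Vert (pf X))) = γ • vt t⁻¹ → g = 1 := by
    intro γ h1 h2
    have e3 : γ⁻¹ * g * γ ∈ MulAction.stabilizer (FY X) (vt 1 : Vert (pf X)) ⊓
        MulAction.stabilizer (FY X) (vt t⁻¹ : Vert (pf X)) := by
      constructor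
      · show (γ⁻¹ * g * γ) • (vt 1 : Vert (pf X)) = vt 1
        rw [mul_smul, mul_smul, h1, inv_smul_smul]
      · show (γ⁻¹ * g * γ) • (vt t⁻¹ : Vert (pf X)) = vt t⁻¹
        rw [mul_smul, mul_smul, h2, inv_smul_smul]
    rw [stab_edge, Subgroup.map_bot, Subgroup.mem_bot] at e3
    have : g = γ * (γ⁻¹ * g * γ) * γ⁻¹ := by group
    rw [this, e3]; group
  obtain ⟨γ, ⟨rfl, rfl⟩ | ⟨rfl, rfl⟩⟩ := one_orbit h
  · exact key γ hx hy
  · exact key γ hy hx

/-- a fixed vertex -/
theorem fix_iff {X : Type} [Group X] {g : FY X} :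
    (∃ v : Vert (pf X), g • v = v) ↔ ∃ (γ : FY X) (x : X), g = γ * of x * γ⁻¹ := by
  constructor
  · rintro ⟨v, hv⟩
    obtain ⟨γ, rfl⟩ := exists_vt v
    rw [smul_vt, eq_comm, vt_eq_iff] at hv
    obtain ⟨x, hx⟩ := hv
    exact ⟨γ, x, by rw [hx]; group⟩
  · rintro ⟨γ, x, rfl⟩
    refine ⟨vt γ, ?_⟩
    rw [smul_vt, eq_comm, vt_eq_iff]
    exact ⟨x, by group⟩

section psi

variable {X H : Type} [Group X] [Group H] (ι : X →* H)

/-- the map of the free products -/
def psi : FY X →* FY H := ev ((of : H →* FY H).comp ι) t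

theorem psi_of (x : X) : psi ι (of x) = of (ι x) := ev_of _ _ _

theorem psi_t : psi ι t = t := ev_t _ _

variable {ι} (hι : Function.Injective ι)
include hι

theorem psi_word (w : ReducedWord X (⊥ : Subgroup X) ⊥) : ∃ w' : ReducedWord H (⊥ : Subgroup H) ⊥,
    w'.prod (pf H) = psi ι (w.prod (pf X)) ∧ w'.toList = w.toList.map (fun x => (x.1, ι x.2)) := by
  have h0 : ∀ (u : ℤˣ) (x : H), x ∈ toSubgroup (⊥ : Subgroup H) ⊥ u → x = 1 := by
    intro u x hx
    unfold toSubgroup at hx
    split_ifs at hx <;> simpa using hx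
  refine ⟨{ head := ι w.head, toList := w.toList.map (fun x => (x.1, ι x.2)), chain := ?_ }, ?_, rfl⟩
  · rw [List.isChain_map]
    refine w.chain.imp ?_
    intro a b hab h
    apply hab
    have h1 := h0 _ _ h
    have h2 : a.2 = 1 := hι (h1.trans (map_one ι).symm)
    rw [h2]
    exact Subgroup.one_mem _
  · show of (ι w.head) * ((w.toList.map (fun x => (x.1, ι x.2))).map
      (fun x => t ^ (x.1 : ℤ) * of x.2)).prod = psi ι (of w.head *
        (w.toList.map (fun x => t ^ (x.1 : ℤ) * of x.2)).prod)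
    rw [map_mul, psi_of, map_list_prod, List.map_map, List.map_map]
    congr 2
    apply List.map_congr_left
    intro x _
    show t ^ (x.1 : ℤ) * of (ι x.2) = psi ι (t ^ (x.1 : ℤ) * of x.2)
    rw [map_mul, map_zpow, psi_of, psi_t]

theorem psi_range (g : FY X) (hg : ∃ y : H, psi ι g = of y) : ∃ x : X, g = of x := by
  obtain ⟨y, hy⟩ := hg
  obtain ⟨d⟩ := TransversalPair.nonempty X (⊥ : Subgroup X) ⊥
  have h1 := nw_prod d (φ := pf X) g
  obtain ⟨w', h2, h3⟩ := psi_word hι (nw d (φ := pf X) g).toReducedWord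
  have h4 : w'.prod (pf H) ∈ (of.range : Subgroup (FY H)) := by
    rw [h2]
    refine ⟨y, ?_⟩
    rw [← hy]
    exact congrArg (psi ι) h1.symm
  have h5 := ReducedWord.toList_eq_nil_of_mem_of_range (pf H) w' h4
  rw [h3, List.map_eq_nil_iff] at h5
  refine ⟨(nw d (φ := pf X) g).head, ?_⟩
  refine h1.symm.trans ?_
  show of _ * ((nw d (φ := pf X) g).toList.map _).prod = _
  rw [h5]
  simp

theorem psi_inj : Function.Injective (psi ι) := by
  rw [injective_iff_map_eq_one]
  intro g hg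
  obtain ⟨x, rfl⟩ := psi_range hι g ⟨1, by rw [hg, map_one]⟩
  rw [psi_of] at hg
  have h1 : ι x = 1 := of_injective _ (hg.trans (map_one _).symm)
  have h2 : x = 1 := hι (h1.trans (map_one ι).symm)
  rw [h2, map_one]

omit hι in
variable (ι) in
/-- the map of the vertices -/
noncomputable def vm (v : Vert (pf X)) : Vert (pf H) := vt (psi ι v.out)

omit hι in
theorem vm_vt (a : FY X) : vm ι (vt a) = vt (psi ι a) := by
  have h : vt (vt a : Vert (pf X)).out = (vt a : Vert (pf X)) := Quotient.out_eq _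
  obtain ⟨x, hx⟩ := vt_eq_iff.mp h
  rw [vm, vt_eq_iff]
  have e := congrArg (psi ι) hx
  rw [map_mul, psi_of] at e
  exact ⟨ι x, e⟩

omit hι in
theorem vm_smul (g : FY X) (v : Vert (pf X)) : psi ι g • vm ι v = vm ι (g • v) := by
  obtain ⟨a, rfl⟩ := exists_vt v
  rw [vm_vt, smul_vt, smul_vt, vm_vt, map_mul]

theorem vm_inj : Function.Injective (vm ι) := by
  intro v w hvw
  obtain ⟨a, rfl⟩ := exists_vt v
  obtain ⟨b, rfl⟩ := exists_vt w
  rw [vm_vt, vm_vt, vt_eq_iff] at hvw
  obtain ⟨y, hy⟩ := hvw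
  obtain ⟨x, hx⟩ := psi_range hι (a⁻¹ * b) ⟨y, by rw [map_mul, map_inv, ← hy]; group⟩
  rw [vt_eq_iff]
  exact ⟨x, by rw [← hx]; group⟩

omit hι in
theorem vm_adj {v w : Vert (pf X)} (h : (graph (pf X)).Adj v w) :
    (graph (pf H)).Adj (vm ι v) (vm ι w) := by
  obtain ⟨g, ⟨rfl, rfl⟩ | ⟨rfl, rfl⟩⟩ := adj_iff.mp h
  · rw [vm_vt, vm_vt, map_mul, psi_t]
    exact adj_vt _
  · rw [vm_vt, vm_vt, map_mul, psi_t]
    exact (adj_vt _).symm

theorem vm_axis {r : FY X} {L : ℤ → Vert (pf X)} {l : ℕ} (h : IsAxis (graph (pf X)) r L l) :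
    IsAxis (graph (pf H)) (psi ι r) (fun i => vm ι (L i)) l where
  line := ⟨fun i => vm_adj (h.line.adj i), fun i hi => h.line.nb i (vm_inj hι hi)⟩
  pos := h.pos
  smul i := by rw [vm_smul, h.smul]

/-- elements which conjugate a power of `r` to a power of `r` -/
theorem comm_cyc (hX : IsTF X) (hH : IsTF H) {r : FY X} (hr : NP r)
    (hhyp : ∀ v : Vert (pf X), r • v ≠ v) (g : FY H) (p q : ℤ) (hp : p ≠ 0)
    (hg : g * psi ι r ^ p * g⁻¹ = psi ι r ^ q) : g ∈ Subgroup.zpowers (psi ι r) := by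
  obtain ⟨L, l, hax⟩ := (treeAct (φ := pf X)).exists_axis hhyp
  have hax' := vm_axis hι hax
  have hq : q ≠ 0 := by
    rintro rfl
    rw [zpow_zero, mul_inv_eq_one] at hg
    have h1 : psi ι r ^ p = 1 := by
      have : psi ι r ^ p = g⁻¹ * (g * psi ι r ^ p) := by group
      rw [this, hg]; group
    have h2 := disp_le (treeAct (φ := pf H)) hax' hp (vm ι (L 0))
    rw [h1, one_smul, SimpleGraph.dist_self] at h2
    have h3 : 0 < p.natAbs * l := Nat.mul_pos (by omega) hax.pos
    omega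
  obtain ⟨c, hc⟩ := axis_trans (fun x y h g => edge_free x y h g) (treeAct (φ := pf H)) (tf_hnn hH)
    hax'.line (axis_inv (treeAct (φ := pf H)) hax' hp hq hg)
  -- `g` is in the image
  have hmem : ∃ g' : FY X, g = psi ι g' := by
    have a1 := hax.line.adj 0
    have a2 := hax.line.adj c
    have c1 := hc 0
    have c2 := hc (0 + 1)
    rw [add_zero] at c1
    rw [zero_add, ] at c2
    have key : ∀ g1 g2 : FY X, g • (vt (psi ι g1) : Vert (pf H)) = vt (psi ι g2) →
        g • (vt (psi ι (g1 * t)) : Vert (pf H)) = vt (psi ι (g2 * t)) →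
        ∃ g' : FY X, g = psi ι g' := by
      intro g1 g2 e1 e2
      have e3 := edge_free (vt 1 : Vert (pf H)) (vt t) (by simpa using adj_vt (1 : FY H))
        ((psi ι g2)⁻¹ * g * psi ι g1) (by
          rw [mul_smul, mul_smul]
          have : psi ι g1 • (vt 1 : Vert (pf H)) = vt (psi ι g1) := by rw [smul_vt, mul_one]
          rw [this, e1, smul_vt, inv_mul_cancel]) (by
          rw [mul_smul, mul_smul]
          have : psi ι g1 • (vt t : Vert (pf H)) = vt (psi ι (g1 * t)) := by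
            rw [smul_vt, map_mul, psi_t]
          rw [this, e2, smul_vt, map_mul, psi_t, inv_mul_cancel_left])
      refine ⟨g2 * g1⁻¹, ?_⟩
      rw [map_mul, map_inv]
      have : g = psi ι g2 * ((psi ι g2)⁻¹ * g * psi ι g1) * (psi ι g1)⁻¹ := by group
      rw [this, e3, mul_one]
    have hlv : ∀ x y : Vert (pf H), g • x = y → lvl y = expo (pf H) g * lvl x := by
      intro x y h
      rw [← h, lvl_smul]
    have hl : ∀ a : FY X, lvl (vt (psi ι (a * t)) : Vert (pf H)) =
        lvl (vt (psi ι a) : Vert (pf H)) * Multiplicative.ofAdd 1 := by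
      intro a
      rw [map_mul, psi_t, lvl_vt, lvl_vt, map_mul, expo_t]
    obtain ⟨g1, ⟨h1, h2⟩ | ⟨h1, h2⟩⟩ := adj_iff.mp a1
    · obtain ⟨g2, ⟨h3, h4⟩ | ⟨h3, h4⟩⟩ := adj_iff.mp a2
      · rw [zero_add] at h2
        simp only [h1, h2, h3, h4, vm_vt] at c1 c2
        exact key g1 g2 c1 c2
      · exfalso
        rw [zero_add] at h2
        simp only [h1, h2, h3, h4, vm_vt] at c1 c2
        have f1 := congrArg Multiplicative.toAdd (hlv _ _ c1)
        have f2 := congrArg Multiplicative.toAdd (hlv _ _ c2)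
        rw [hl] at f1 f2
        simp only [toAdd_mul, toAdd_ofAdd] at f1 f2
        omega
    · obtain ⟨g2, ⟨h3, h4⟩ | ⟨h3, h4⟩⟩ := adj_iff.mp a2
      · exfalso
        rw [zero_add] at h1
        simp only [h1, h2, h3, h4, vm_vt] at c1 c2
        have f1 := congrArg Multiplicative.toAdd (hlv _ _ c1)
        have f2 := congrArg Multiplicative.toAdd (hlv _ _ c2)
        rw [hl] at f1 f2
        simp only [toAdd_mul, toAdd_ofAdd] at f1 f2
        omega
      · rw [zero_add] at h1
        simp only [h1, h2, h3, h4, vm_vt] at c1 c2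
        exact key g1 g2 c2 c1
  obtain ⟨g', rfl⟩ := hmem
  have hg' : g' * r ^ p * g'⁻¹ = r ^ q := by
    apply psi_inj hι
    rw [map_mul, map_mul, map_inv, map_zpow, map_zpow]
    exact hg
  obtain ⟨c', hc'⟩ := axis_trans (fun x y h g => edge_free x y h g) (treeAct (φ := pf X)) (tf_hnn hX)
    hax.line (axis_inv (treeAct (φ := pf X)) hax hp hq hg')
  obtain ⟨k, rfl⟩ := mem_of_trans (fun x y h g => edge_free x y h g) hax hr hc'
  exact ⟨k, (map_zpow _ _ _).symm⟩

omit hι in
/-- no power of `r` is conjugate to an element of `H` -/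
theorem not_ell (hι : Function.Injective ι) {r : FY X} (hhyp : ∀ v : Vert (pf X), r • v ≠ v)
    (g : FY H) (p : ℤ) (hp : p ≠ 0) (u : H) : g * psi ι r ^ p * g⁻¹ ≠ of u := by
  intro hg
  obtain ⟨L, l, hax⟩ := (treeAct (φ := pf X)).exists_axis hhyp
  have hax' := vm_axis hι hax
  have h1 : psi ι r ^ p • (g⁻¹ • (vt 1 : Vert (pf H))) = g⁻¹ • vt 1 := by
    have h2 : (of u : FY H) • (vt 1 : Vert (pf H)) = vt 1 := (stab_one _).2 ⟨u, rfl⟩
    rw [← hg, mul_smul, mul_smul] at h2
    exact eq_inv_smul_iff.2 h2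
  have h2 := disp_le (treeAct (φ := pf H)) hax' hp (g⁻¹ • (vt 1 : Vert (pf H)))
  rw [h1, SimpleGraph.dist_self] at h2
  have h3 : 0 < p.natAbs * l := Nat.mul_pos (by omega) hax.pos
  omega

end psi

end Pool.Agent.H4.OS
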