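import Pool.Agent.H4.SE.Adj

/-!
# HNN extensions over cyclic groups, one of which is its own commensurator
-/

set_option autoImplicit false

namespace Pool.Agent.H4.OS

open Monoid HNNExtension SimpleGraph Pool.Agent.Helper270.HNN Pool.Agent.Helper270.Tree
open Pool.Agent.Q152.TC Pool.Agent.X176.FJ Pool.Agent.Q91.FJ Pool.Agent.H4.SE
open Pool.Agent.Y462.SS (Closed)

section star

variable {H : Type} [Group H] {u v : H} {φ : Subgroup.zpowers u ≃* Subgroup.zpowers v}

theorem phi_zpow (hφ : φ ⟨u, Subgroup.mem_zpowers u⟩ = ⟨v, Subgroup.mem_zpowers v⟩)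
    (a : Subgroup.zpowers u) (k : ℤ) (ha : (a : H) = u ^ k) :
    ((φ a : Subgroup.zpowers v) : H) = v ^ k := by
  have h1 : a = (⟨u, Subgroup.mem_zpowers u⟩ : Subgroup.zpowers u) ^ k := Subtype.ext ha
  rw [h1, map_zpow, hφ]
  rfl

theorem t_conj (hφ : φ ⟨u, Subgroup.mem_zpowers u⟩ = ⟨v, Subgroup.mem_zpowers v⟩) (k : ℤ) :
    (t : HNNExtension H (Subgroup.zpowers u) (Subgroup.zpowers v) φ) * of (u ^ k) * t⁻¹ =
      of (v ^ k) := by
  have h1 := equiv_eq_conj (φ := φ) (⟨u ^ k, k, rfl⟩ : Subgroup.zpowers u)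
  rw [phi_zpow hφ ⟨u ^ k, k, rfl⟩ k rfl] at h1
  exact h1.symm

/-- the vertices fixed by a power of `u` -/
theorem star (hu : ¬ IsOfFinOrder u)
    (hφ : φ ⟨u, Subgroup.mem_zpowers u⟩ = ⟨v, Subgroup.mem_zpowers v⟩)
    (h1 : ∀ (g : H) (p q : ℤ), p ≠ 0 → g * v ^ p * g⁻¹ = v ^ q → g ∈ Subgroup.zpowers v)
    (h2 : ∀ (g : H) (p q : ℤ), p ≠ 0 → g * v ^ p * g⁻¹ ≠ u ^ q) {k : ℤ} (hk : k ≠ 0)
    (x : Vert φ) (hx : (of (u ^ k) : HNNExtension H _ _ φ) • x = x) :
    x = vt 1 ∨ ∃ a : H, x = vt (of a * t⁻¹) := by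
  have hinj : ∀ j : ℤ, u ^ j = 1 → j = 0 := by
    intro j hj
    by_contra hne
    apply hu
    rw [isOfFinOrder_iff_zpow_eq_one]
    exact ⟨j, hne, hj⟩
  have hbase : ∀ y : Vert φ, (graph φ).Adj (vt 1) y → (of (u ^ k) : HNNExtension H _ _ φ) • y = y →
      ∃ a : H, y = vt (of a * t⁻¹) := by
    intro y hy hfix
    obtain ⟨a, rfl | rfl⟩ := adj_vt_one hy
    · exfalso
      obtain ⟨j, hj⟩ := (fix_t a (u ^ k)).1 hfix
      have hj' : v ^ j = a⁻¹ * u ^ k * a := hj
      have hj0 : j ≠ 0 := by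
        rintro rfl
        rw [zpow_zero] at hj'
        apply hk
        apply hinj
        have : u ^ k = a * (a⁻¹ * u ^ k * a) * a⁻¹ := by group
        rw [this, ← hj']; group
      exact h2 a j k hj0 (by rw [hj']; group)
    · exact ⟨a, rfl⟩
  by_cases hx1 : x = vt 1
  · exact Or.inl hx1
  right
  obtain ⟨q, hq0, hqn, hadj, hd, hnb⟩ := exists_geod (isTree (φ := φ)) (vt 1) x
  have hpos : 0 < (graph φ).dist (vt 1) x := by
    rcases Nat.eq_zero_or_pos ((graph φ).dist (vt 1) x) with h0 | h0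
    · exact absurd ((isTree (φ := φ)).connected.dist_eq_zero_iff.mp h0).symm hx1
    · exact h0
  have hb1 : (of (u ^ k) : HNNExtension H _ _ φ) • (vt 1 : Vert φ) = vt 1 :=
    (stab_one _).2 ⟨_, rfl⟩
  have hq1 : (of (u ^ k) : HNNExtension H _ _ φ) • q 1 = q 1 := by
    have h3 := hd 1 hpos
    exact (treeAct (φ := φ)).convex hb1 hx (by omega)
  have hadj1 : (graph φ).Adj (vt 1) (q 1) := by
    have := hadj 0 hpos
    rwa [hq0] at this
  obtain ⟨a, ha⟩ := hbase (q 1) hadj1 hq1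
  rcases Nat.lt_or_ge 1 ((graph φ).dist (vt 1) x) with hlt | hge
  · exfalso
    have hq2 : (of (u ^ k) : HNNExtension H _ _ φ) • q 2 = q 2 := by
      have h3 := hd 2 hlt
      exact (treeAct (φ := φ)).convex hb1 hx (by omega)
    have hne : q 0 ≠ q 2 := hnb 0 hlt
    have hadj2 := hadj 1 hlt
    -- translate
    obtain ⟨m, hm⟩ := (fix_t_inv a (u ^ k)).1 (by rw [← ha]; exact hq1)
    have hm' : u ^ m = a⁻¹ * u ^ k * a := hm
    have hm0 : m ≠ 0 := by
      rintro rfl
      rw [zpow_zero] at hm'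
      apply hk
      apply hinj
      have : u ^ k = a * (a⁻¹ * u ^ k * a) * a⁻¹ := by group
      rw [this, ← hm']; group
    let w : HNNExtension H _ _ φ := (of a * t⁻¹)⁻¹
    have hw1 : w • q 1 = vt 1 := by
      rw [ha, smul_vt]
      congr 1
      exact inv_mul_cancel _
    have hw0 : w • q 0 = vt t := by
      rw [hq0, smul_vt, mul_one]
      show vt (of a * t⁻¹)⁻¹ = vt t
      have e : ((of a * t⁻¹)⁻¹ : HNNExtension H _ _ φ) = t * of a⁻¹ := by
        rw [map_inv]; group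
      rw [e, vt_mul_of]
    have hwc : w * of (u ^ k) * w⁻¹ = (of (v ^ m) : HNNExtension H _ _ φ) := by
      rw [← t_conj hφ m, hm']
      show (of a * t⁻¹)⁻¹ * of (u ^ k) * ((of a * t⁻¹)⁻¹)⁻¹ = _
      simp only [map_mul, map_inv]
      group
    have hw2 : (of (v ^ m) : HNNExtension H _ _ φ) • (w • q 2) = w • q 2 := by
      rw [← hwc, mul_smul, mul_smul, inv_smul_smul, hq2]
    have hadj3 : (graph φ).Adj (vt 1) (w • q 2) := by
      have := (treeAct (φ := φ)).adj w _ _ hadj2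
      rwa [hw1] at this
    have hne3 : w • q 2 ≠ vt t := by
      intro h
      rw [← hw0] at h
      exact hne (smul_left_cancel w h).symm
    obtain ⟨b, hb | hb⟩ := adj_vt_one hadj3
    · rw [hb] at hw2
      obtain ⟨j, hj⟩ := (fix_t b (v ^ m)).1 hw2
      have hj' : v ^ j = b⁻¹ * v ^ m * b := hj
      have hbm : b⁻¹ ∈ Subgroup.zpowers v := h1 b⁻¹ m j hm0 (by rw [hj', inv_inv])
      have hbm' : b ∈ Subgroup.zpowers v := by simpa using hbm
      obtain ⟨y, hy⟩ := (conj_t (φ := φ) b).2 hbm'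
      apply hne3
      rw [hb]
      have e : (of b * t : HNNExtension H _ _ φ) = t * of y := by rw [← hy]; group
      rw [e, vt_mul_of]
    · rw [hb] at hw2
      obtain ⟨j, hj⟩ := (fix_t_inv b (v ^ m)).1 hw2
      have hj' : u ^ j = b⁻¹ * v ^ m * b := hj
      exact h2 b⁻¹ m j hm0 (by rw [hj', inv_inv])
  · have hd1 : (graph φ).dist (vt 1) x = 1 := by omega
    rw [hd1] at hqn
    exact ⟨a, by rw [← hqn, ha]⟩

/-- the commensurator of an element of an edge stabilizer fixes a vertex -/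
theorem comm_fix (hu : ¬ IsOfFinOrder u)
    (hφ : φ ⟨u, Subgroup.mem_zpowers u⟩ = ⟨v, Subgroup.mem_zpowers v⟩)
    (h1 : ∀ (g : H) (p q : ℤ), p ≠ 0 → g * v ^ p * g⁻¹ = v ^ q → g ∈ Subgroup.zpowers v)
    (h2 : ∀ (g : H) (p q : ℤ), p ≠ 0 → g * v ^ p * g⁻¹ ≠ u ^ q)
    (g : HNNExtension H _ _ φ) (p q : ℤ) (hp : p ≠ 0) (hq : q ≠ 0)
    (hg : g * of (u ^ p) * g⁻¹ = of (u ^ q)) : g • (vt 1 : Vert φ) = vt 1 := by
  have hb1 : ∀ k : ℤ, (of (u ^ k) : HNNExtension H _ _ φ) • (vt 1 : Vert φ) = vt 1 := fun k =>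
    (stab_one _).2 ⟨_, rfl⟩
  have e1 : (of (u ^ q) : HNNExtension H _ _ φ) • (g • (vt 1 : Vert φ)) = g • vt 1 := by
    rw [← hg, mul_smul, mul_smul, inv_smul_smul, hb1]
  have hg' : g⁻¹ * of (u ^ q) * g = (of (u ^ p) : HNNExtension H _ _ φ) := by
    rw [← hg]; group
  have e2 : (of (u ^ p) : HNNExtension H _ _ φ) • (g⁻¹ • (vt 1 : Vert φ)) = g⁻¹ • vt 1 := by
    rw [← hg', mul_smul, mul_smul, smul_inv_smul, hb1]
  have hlev : ∀ a : H, lvl (vt (of a * t⁻¹) : Vert φ) = Multiplicative.ofAdd (-1) := by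
    intro a
    rw [lvl_vt, map_mul, map_inv, expo_of, expo_t, one_mul]
    rfl
  rcases star hu hφ h1 h2 hq _ e1 with h | ⟨a, ha⟩
  · exact h
  rcases star hu hφ h1 h2 hp _ e2 with h | ⟨b, hb⟩
  · rw [inv_smul_eq_iff] at h
    exact h.symm
  exfalso
  have f1 := congrArg lvl ha
  have f2 := congrArg lvl hb
  rw [hlev, smul_vt, lvl_vt, mul_one] at f1 f2
  rw [map_inv, f1] at f2
  have f3 := congrArg Multiplicative.toAdd f2
  rw [toAdd_inv, toAdd_ofAdd] at f3
  omega

end star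

variable {C : ∀ (G : Type) [Group G], Prop}

/-- the edge stabilizers are virtually cyclic -/
theorem vcyc_edge {H : Type} [Group H] {u v : H} (φ : Subgroup.zpowers u ≃* Subgroup.zpowers v)
    (x y : Vert φ) (hxy : (graph φ).Adj x y) : VCyc (St (HNNExtension H _ _ φ) x y) := by
  have hbase : VCyc (St (HNNExtension H (Subgroup.zpowers u) (Subgroup.zpowers v) φ)
      (vt 1 : Vert φ) (vt t⁻¹ : Vert φ)) := by
    have h1 := stab_edge (φ := φ)
    show VCyc (MulAction.stabilizer _ (vt 1 : Vert φ) ⊓ MulAction.stabilizer _ (vt t⁻¹ : Vert φ))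
    rw [h1, MonoidHom.map_zpowers]
    exact vcyc_zpowers _
  have hconj : ∀ g : HNNExtension H (Subgroup.zpowers u) (Subgroup.zpowers v) φ,
      VCyc (St (HNNExtension H (Subgroup.zpowers u) (Subgroup.zpowers v) φ)
      (g • vt 1 : Vert φ) (g • vt t⁻¹ : Vert φ)) := by
    intro g
    rw [St_smul]
    obtain ⟨c, hc, hi⟩ := hbase
    refine ⟨MulAut.conj g c, ⟨c, hc, rfl⟩, ?_⟩
    have h2 : Subgroup.zpowers (MulAut.conj g c) =
        (Subgroup.zpowers c).map (MulAut.conj g).toMonoidHom := by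
      rw [MonoidHom.map_zpowers]; rfl
    rw [h2, relIndex_conj]
    exact hi
  obtain ⟨g, ⟨rfl, rfl⟩ | ⟨rfl, rfl⟩⟩ := one_orbit hxy
  · exact hconj g
  · have := hconj g
    rwa [St, inf_comm] at this

/-- the vertex stabilizers are in the class -/
theorem mem_vert (hC : Closed C) {H : Type} [Group H] (hH : C H) {A B : Subgroup H} (φ : A ≃* B)
    (v' : Vert φ) : C (MulAction.stabilizer (HNNExtension H A B φ) v') := by
  obtain ⟨γ, rfl⟩ := exists_vt v'
  have hr : C (of.range : Subgroup (HNNExtension H A B φ)) := by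
    let e := MonoidHom.ofInjective (of_injective (φ := φ))
    exact hC.of_injective _ _ e.symm.toMonoidHom e.symm.injective hH
  let f : MulAction.stabilizer (HNNExtension H A B φ) (vt γ : Vert φ) →*
      (of.range : Subgroup (HNNExtension H A B φ)) :=
    ((MulAut.conj γ⁻¹).toMonoidHom.comp (Subgroup.subtype _)).codRestrict _ (by
      rintro ⟨k, hk⟩
      have hk' : k • (vt γ : Vert φ) = vt γ := hk
      rw [smul_vt, eq_comm, vt_eq_iff] at hk'
      obtain ⟨y, hy⟩ := hk'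
      refine ⟨y, ?_⟩
      show of y = γ⁻¹ * k * γ⁻¹⁻¹
      rw [inv_inv, mul_assoc, ← hy]; group)
  refine hC.of_injective _ _ f ?_ hr
  intro a b hab
  have h1 := congrArg Subtype.val hab
  exact Subtype.ext ((MulAut.conj γ⁻¹).injective h1)

/-- Let `v` have infinite order, let `⟨v⟩` contain all elements which conjugate a nontrivial power
of `v` to a power of `v`, and let no nontrivial power of `v` be conjugate to a power of `u`.  Then the
HNN extension of `H` in which `u` and `v` are conjugate is in the class. -/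
theorem one_sided (hC : Closed C) (hS : HasSolvable C) (hA : TreeClosed C) {H : Type} [Group H]
    (hH : C H) {u v : H} (hu : ¬ IsOfFinOrder u)
    (φ : Subgroup.zpowers u ≃* Subgroup.zpowers v)
    (hφ : φ ⟨u, Subgroup.mem_zpowers u⟩ = ⟨v, Subgroup.mem_zpowers v⟩)
    (h1 : ∀ (g : H) (p q : ℤ), p ≠ 0 → g * v ^ p * g⁻¹ = v ^ q → g ∈ Subgroup.zpowers v)
    (h2 : ∀ (g : H) (p q : ℤ), p ≠ 0 → g * v ^ p * g⁻¹ ≠ u ^ q) :
    C (HNNExtension H (Subgroup.zpowers u) (Subgroup.zpowers v) φ) := by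
  refine main hC hS hA (T := graph φ) isTree (treeAct (φ := φ)).adj ?_ ?_ ?_
  · exact fun x y hxy => vcyc_edge φ x y hxy
  · exact fun v' => mem_vert hC hH φ v'
  · intro x y hxy c hc hc' _
    have hgen : ∀ γ : HNNExtension H _ _ φ, c • (γ • vt 1 : Vert φ) = γ • vt 1 →
        c • (γ • vt t⁻¹ : Vert φ) = γ • vt t⁻¹ → C (Cmm c) := by
      intro γ e1 e2
      have e3 : γ⁻¹ * c * γ ∈ MulAction.stabilizer (HNNExtension H _ _ φ) (vt 1 : Vert φ) ⊓
          MulAction.stabilizer (HNNExtension H _ _ φ) (vt t⁻¹ : Vert φ) := by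
        constructor
        · show (γ⁻¹ * c * γ) • (vt 1 : Vert φ) = vt 1
          rw [mul_smul, mul_smul, e1, inv_smul_smul]
        · show (γ⁻¹ * c * γ) • (vt t⁻¹ : Vert φ) = vt t⁻¹
          rw [mul_smul, mul_smul, e2, inv_smul_smul]
      rw [stab_edge] at e3
      obtain ⟨_, ⟨k, rfl⟩, hk⟩ := e3
      have hk' : of (u ^ k) = γ⁻¹ * c * γ := hk
      have hk0 : k ≠ 0 := by
        rintro rfl
        apply hc'
        rw [zpow_zero, map_one] at hk'
        have : c = γ * (γ⁻¹ * c * γ) * γ⁻¹ := by group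
        rw [this, ← hk']
        have e : γ * 1 * γ⁻¹ = 1 := by group
        rw [e]
        exact IsOfFinOrder.one
      have hle : Cmm c ≤ MulAction.stabilizer (HNNExtension H _ _ φ) (γ • vt 1 : Vert φ) := by
        intro g hg
        obtain ⟨p, q, hp, hq, hpq⟩ := hg
        have hcz : ∀ j : ℤ, γ⁻¹ * c ^ j * γ = of (u ^ (k * j)) := by
          intro j
          rw [zpow_mul, map_zpow, hk']
          have := conj_zpow (a := γ⁻¹) (b := c) (i := j)
          rw [inv_inv] at this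
          exact this.symm
        have h3 := comm_fix hu hφ h1 h2 (γ⁻¹ * g * γ) (k * p) (k * q) (mul_ne_zero hk0 hp)
          (mul_ne_zero hk0 hq) (by
            rw [← hcz, ← hcz, ← hpq]; group)
        show g • (γ • vt 1 : Vert φ) = γ • vt 1
        rw [mul_smul, mul_smul, inv_smul_eq_iff] at h3
        exact h3
      exact hC.of_injective _ _ (Subgroup.inclusion hle) (Subgroup.inclusion_injective hle)
        (mem_vert hC hH φ _)
    obtain ⟨γ, ⟨rfl, rfl⟩ | ⟨rfl, rfl⟩⟩ := one_orbit hxy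
    · exact hgen γ hc.1 hc.2
    · exact hgen γ hc.2 hc.1

end Pool.Agent.H4.OS
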