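import Pool.Agent.H4.OS.Word

/-!
# Values of words: consequences
-/

set_option autoImplicit false

namespace Pool.Agent.H4.OS

open Monoid HNNExtension SimpleGraph Pool.Agent.Helper270.HNN Pool.Agent.Helper270.Tree
open Pool.Agent.X176.FJ Pool.Agent.H4.SE

/-- `r` is conjugate to an element of the factor -/
def Ell {S : Type} [Group S] (r : FY S) : Prop := ∃ (γ : FY S) (x : S), r = γ * of x * γ⁻¹

/-- every word which is not conjugate to an element of the factor takes values in all conjugacy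
classes, except possibly the class of `1` -/
def Vals (S : Type) [Group S] : Prop := ∀ r : FY S, ¬ Ell r → ∀ h : S, h ≠ 1 →
  ∃ y z : S, ev (MonoidHom.id S) y r = z * h * z⁻¹

/-- `S` acts on the free group on `S` -/
def actF (S : Type) [Group S] : S →* MulAut (FreeGroup S) where
  toFun s := FreeGroup.freeGroupCongr (Equiv.mulLeft s)
  map_one' := by
    ext x
    show FreeGroup.map (fun x => (1 : S) * x) x = x
    have : (fun x : S => (1 : S) * x) = id := by
      funext x; exact one_mul x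
    rw [this, FreeGroup.map.id]
  map_mul' a b := by
    ext x
    show FreeGroup.map (fun x => a * b * x) x = FreeGroup.map (fun x => a * x)
      (FreeGroup.map (fun x => b * x) x)
    rw [FreeGroup.map.comp]
    congr 2
    funext x
    exact mul_assoc a b x

theorem actF_of {S : Type} [Group S] (s x : S) : actF S s (FreeGroup.of x) = FreeGroup.of (s * x) :=
  FreeGroup.map.of

/-- the substitution of `a ^ i t a ^ (-i)` for the letters -/
def sbs {S : Type} [Group S] (a : S) (n : ℕ) : FreeGroup (Fin n) →* FY S :=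
  FreeGroup.lift fun i => of (a ^ (i : ℕ)) * t * (of (a ^ (i : ℕ)))⁻¹

theorem sbs_inj {S : Type} [Group S] {a : S} (ha : ¬ IsOfFinOrder a) (n : ℕ) :
    Function.Injective (sbs a n) := by
  let f : FY S →* FreeGroup S ⋊[actF S] S := ev SemidirectProduct.inr
    (SemidirectProduct.inl (FreeGroup.of 1))
  have h1 : f.comp (sbs a n) = (SemidirectProduct.inl).comp
      (FreeGroup.map (fun i : Fin n => a ^ (i : ℕ))) := by
    apply FreeGroup.ext_hom
    intro i
    show f (sbs a n (FreeGroup.of i)) = SemidirectProduct.inl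
      (FreeGroup.map (fun i : Fin n => a ^ (i : ℕ)) (FreeGroup.of i))
    rw [sbs, FreeGroup.lift_apply_of, FreeGroup.map.of, map_mul, map_mul, map_inv]
    show ev _ _ _ * ev _ _ _ * (ev _ _ _)⁻¹ = _
    rw [ev_of, ev_t, ← map_inv, ← SemidirectProduct.inl_aut, actF_of, mul_one]
  have h2 : Function.Injective (f.comp (sbs a n)) := by
    rw [h1]
    refine SemidirectProduct.inl_injective.comp (FreeGroup.map_injective ?_)
    intro i j hij
    exact Fin.ext ((injective_pow_iff_not_isOfFinOrder.2 ha) hij)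
  intro x y hxy
  exact h2 (congrArg f hxy)

/-- the values of words without coefficients -/
theorem verbal {S : Type} [Group S] [Nontrivial S] (htf : IsTF S) (hV : Vals S) (n : ℕ)
    (w : FreeGroup (Fin n)) (hw : w ≠ 1) (g : S) : ∃ x : Fin n → S, FreeGroup.lift x w = g := by
  by_cases hg : g = 1
  · refine ⟨fun _ => 1, ?_⟩
    rw [hg]
    have : FreeGroup.lift (fun _ : Fin n => (1 : S)) = 1 := by
      apply FreeGroup.ext_hom
      intro i
      rw [FreeGroup.lift_apply_of]; rfl
    rw [this]; rfl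
  obtain ⟨a, ha⟩ := exists_ne (1 : S)
  have hai : ¬ IsOfFinOrder a := by
    intro h
    obtain ⟨m, hm, h1⟩ := isOfFinOrder_iff_pow_eq_one.1 h
    exact ha (htf a m hm h1)
  have hne : ¬ Ell (sbs a n w) := by
    rintro ⟨γ, x, h⟩
    have h1 : ev (MonoidHom.id S) 1 (sbs a n w) = 1 := by
      have h2 : (ev (MonoidHom.id S) 1).comp (sbs a n) = 1 := by
        apply FreeGroup.ext_hom
        intro i
        show ev (MonoidHom.id S) 1 (sbs a n (FreeGroup.of i)) = 1
        rw [sbs, FreeGroup.lift_apply_of, map_mul, map_mul, map_inv, ev_of, ev_t, mul_one,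
          mul_inv_cancel]
      exact DFunLike.congr_fun h2 w
    rw [h, map_mul, map_mul, map_inv, ev_of] at h1
    have h2 : x = 1 := by
      have h3 : x = (ev (MonoidHom.id S) 1 γ)⁻¹ * (ev (MonoidHom.id S) 1 γ * x *
        (ev (MonoidHom.id S) 1 γ)⁻¹) * ev (MonoidHom.id S) 1 γ := by group
      rw [h3]
      have h4 : ev (MonoidHom.id S) 1 γ * x * (ev (MonoidHom.id S) 1 γ)⁻¹ = 1 := h1
      rw [h4]; group
    rw [h2, map_one] at h
    apply hw
    apply sbs_inj hai n
    rw [h, map_one]; group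
  obtain ⟨y, z, h⟩ := hV _ hne g hg
  refine ⟨fun i => z⁻¹ * (a ^ (i : ℕ) * y * (a ^ (i : ℕ))⁻¹) * z, ?_⟩
  have h1 : FreeGroup.lift (fun i : Fin n => z⁻¹ * (a ^ (i : ℕ) * y * (a ^ (i : ℕ))⁻¹) * z) =
      (MulAut.conj z⁻¹).toMonoidHom.comp ((ev (MonoidHom.id S) y).comp (sbs a n)) := by
    apply FreeGroup.ext_hom
    intro i
    show FreeGroup.lift _ (FreeGroup.of i) = z⁻¹ * ev (MonoidHom.id S) y (sbs a n (FreeGroup.of i)) * z⁻¹⁻¹
    rw [FreeGroup.lift_apply_of, sbs, FreeGroup.lift_apply_of, map_mul, map_mul, map_inv, ev_of, ev_t,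
      inv_inv]
    rfl
  rw [h1]
  show z⁻¹ * ev (MonoidHom.id S) y (sbs a n w) * z⁻¹⁻¹ = g
  rw [h]; group

/-- products of two conjugates -/
theorem two_conj {S : Type} [Group S] (hV : Vals S) (a b : S) (ha : a ≠ 1) (hb : b ≠ 1) :
    ∃ x y : S, b = (x * a * x⁻¹) * (y * a * y⁻¹) := by
  have hne : ¬ Ell (of a * (t * of a * t⁻¹) : FY S) := by
    rintro ⟨γ, x, h⟩
    have h1 := nu_st (φ := pf S) ha ha
    rw [h] at h1
    have h2 := h1.conj γ⁻¹
    have h3 : γ⁻¹ * (γ * of x * γ⁻¹) * γ⁻¹⁻¹ = of x := by group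
    rw [h3] at h2
    have hof : ∀ x : S, (nu (pf S)).f (of x) = 0 := by
      intro x
      show (((graph (pf S)).dist (vt 1) ((of x : FY S) • vt 1) : ℕ) : ℝ) = 0
      rw [(stab_one (of x : FY S)).2 ⟨x, rfl⟩, SimpleGraph.dist_self]
      exact Nat.cast_zero
    have h4 : (nu (pf S)).St (of x) 0 := ⟨0, fun n => by
      rw [← map_pow, hof]; simp⟩
    have h5 := h2.unique h4
    norm_num at h5
  obtain ⟨y, z, h⟩ := hV _ hne b hb
  rw [map_mul, map_mul, map_mul, map_inv, ev_of, ev_t] at h
  have h' : a * (y * a * y⁻¹) = z * b * z⁻¹ := h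
  refine ⟨z⁻¹, z⁻¹ * y, ?_⟩
  have e : b = z⁻¹ * (z * b * z⁻¹) * z := by group
  rw [e, ← h']; group

theorem simple_of {S : Type} [Group S] [hnt : Nontrivial S] (hV : Vals S) : IsSimpleGroup S := by
  refine { exists_pair_ne := hnt.exists_pair_ne, eq_bot_or_eq_top_of_normal := fun N hN => ?_ }
  by_cases hbot : N = ⊥
  · exact Or.inl hbot
  · right
    obtain ⟨⟨a, haN⟩, ha0⟩ := Subgroup.ne_bot_iff_exists_ne_one.1 hbot
    have ha : a ≠ 1 := fun h => ha0 (Subtype.ext h)
    rw [eq_top_iff]
    intro b _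
    by_cases hb : b = 1
    · rw [hb]; exact N.one_mem
    · obtain ⟨x, y, rfl⟩ := two_conj hV a b ha hb
      exact N.mul_mem (hN.conj_mem _ haN x) (hN.conj_mem _ haN y)

/-! ### words in the coproduct -/

/-- the value of the word `r` with coefficients in `S` at `y` -/
def value {S : Type} [Group S] (r : Coprod S (Multiplicative ℤ)) (y : S) : S :=
  Coprod.lift (MonoidHom.id S) (zpowersHom S y) r

theorem vals_coprod {S : Type} [Group S] (hV : Vals S) (r : Coprod S (Multiplicative ℤ))
    (hr : ¬ ∃ (g : Coprod S (Multiplicative ℤ)) (s : S), r = g * Coprod.inl s * g⁻¹) (h : S)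
    (hh : h ≠ 1) : ∃ y z : S, value r y = z * h * z⁻¹ := by
  let Φ : Coprod S (Multiplicative ℤ) →* FY S := Coprod.lift of (zpowersHom (FY S) t)
  let Ψ : FY S →* Coprod S (Multiplicative ℤ) := ev Coprod.inl (Coprod.inr (Multiplicative.ofAdd 1))
  have h1 : Ψ.comp Φ = MonoidHom.id _ := by
    apply Coprod.hom_ext
    · ext x
      show Ψ (Φ (Coprod.inl x)) = Coprod.inl x
      have : Φ (Coprod.inl x) = of x := Coprod.lift_apply_inl _ _ _
      rw [this]
      exact ev_of _ _ _
    · apply MonoidHom.ext_mint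
      show Ψ (Φ (Coprod.inr (Multiplicative.ofAdd 1))) = Coprod.inr (Multiplicative.ofAdd 1)
      have : Φ (Coprod.inr (Multiplicative.ofAdd 1)) = t := by
        show Coprod.lift of (zpowersHom (FY S) t) (Coprod.inr (Multiplicative.ofAdd 1)) = t
        rw [Coprod.lift_apply_inr]
        simp
      rw [this]
      exact ev_t _ _
  have h2 : ∀ y, value r y = ev (MonoidHom.id S) y (Φ r) := by
    intro y
    have h3 : Coprod.lift (MonoidHom.id S) (zpowersHom S y) = (ev (MonoidHom.id S) y).comp Φ := by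
      apply Coprod.hom_ext
      · ext x
        show Coprod.lift (MonoidHom.id S) (zpowersHom S y) (Coprod.inl x) =
          ev (MonoidHom.id S) y (Coprod.lift of (zpowersHom (FY S) t) (Coprod.inl x))
        rw [Coprod.lift_apply_inl, Coprod.lift_apply_inl, ev_of]
      · apply MonoidHom.ext_mint
        show Coprod.lift (MonoidHom.id S) (zpowersHom S y) (Coprod.inr (Multiplicative.ofAdd 1)) =
          ev (MonoidHom.id S) y (Coprod.lift of (zpowersHom (FY S) t)
            (Coprod.inr (Multiplicative.ofAdd 1)))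
        rw [Coprod.lift_apply_inr, Coprod.lift_apply_inr]
        simp [ev_t]
    exact DFunLike.congr_fun h3 r
  have h3 : ¬ Ell (Φ r) := by
    rintro ⟨γ, x, h4⟩
    apply hr
    refine ⟨Ψ γ, x, ?_⟩
    have h5 := congrArg Ψ h4
    have h6 := DFunLike.congr_fun h1 r
    rw [MonoidHom.comp_apply, MonoidHom.id_apply] at h6
    rw [h6, map_mul, map_mul, map_inv] at h5
    rw [h5]
    congr 2
  obtain ⟨y, z, h4⟩ := hV _ h3 h hh
  exact ⟨y, z, by rw [h2, h4]⟩

end Pool.Agent.H4.OS
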