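import Pool.Agent.H4.OS.Compat

/-!
# Adjoining values of words
-/

set_option autoImplicit false

namespace Pool.Agent.H4.OS

open Monoid HNNExtension SimpleGraph Pool.Agent.Helper270.HNN Pool.Agent.Helper270.Tree
open Pool.Agent.Q152.TC Pool.Agent.X176.FJ Pool.Agent.Q91.FJ Pool.Agent.H4.SE
open Pool.Agent.Y462.SS (Closed)

section word

variable (X : Type) [Group X]

/-- the problems: a word and a value -/
abbrev Pb : Type := FY X × X

/-- the letters -/
abbrev Lq : Type := Pb X × Bool

/-- the free product with the letters -/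
abbrev Gq : Type := Coprod X (FreeGroup (Lq X))

variable {X}

/-- the relation: the value at `y` is the conjugate by `z` of the second component -/
def RQ {D : Type} [Group D] (u : X →* D) (y z : D) (s : Pb X) : Prop :=
  z * u s.2 * z⁻¹ = ev u y s.1

theorem RQ.map {D D' : Type} [Group D] [Group D'] {u : X →* D} {y z : D} {s : Pb X}
    (h : RQ u y z s) (f : D →* D') : RQ (f.comp u) (f y) (f z) s := by
  unfold RQ at h ⊢
  rw [← ev_comp]
  show f z * f (u s.2) * (f z)⁻¹ = f (ev u y s.1)
  rw [← h, map_mul, map_mul, map_inv]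

/-- the relator -/
def rq (s : Pb X) : Gq X :=
  Coprod.inr (FreeGroup.of (s, true)) * Coprod.inl s.2 * (Coprod.inr (FreeGroup.of (s, true)))⁻¹ *
    (ev Coprod.inl (Coprod.inr (FreeGroup.of (s, false))) s.1)⁻¹

variable (X) in
/-- the group with the relations of the problems in `E` -/
abbrev QE (E : Set (Pb X)) : Type := Gq X ⧸ Subgroup.normalClosure (rq '' E)

/-- the map from `X` -/
def xQ (E : Set (Pb X)) : X →* QE X E := (QuotientGroup.mk' _).comp Coprod.inl

/-- the letters -/
def lQ (E : Set (Pb X)) (s : Lq X) : QE X E := QuotientGroup.mk' _ (Coprod.inr (FreeGroup.of s))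

theorem rel_Q {E : Set (Pb X)} {s : Pb X} (hs : s ∈ E) :
    RQ (xQ E) (lQ E (s, false)) (lQ E (s, true)) s := by
  have h1 : (QuotientGroup.mk' (Subgroup.normalClosure (rq '' E))) (rq s) = 1 :=
    (QuotientGroup.eq_one_iff _).2 (Subgroup.subset_normalClosure ⟨s, hs, rfl⟩)
  unfold rq at h1
  rw [map_mul, map_inv, mul_inv_eq_one] at h1
  have h2 := DFunLike.congr_fun (ev_comp (X := X) Coprod.inl
    (Coprod.inr (FreeGroup.of (s, false))) (QuotientGroup.mk' (Subgroup.normalClosure (rq '' E)))) s.1
  rw [MonoidHom.comp_apply] at h2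
  unfold RQ
  refine Eq.trans ?_ (h1.trans h2)
  rw [map_mul, map_mul, map_inv]
  rfl

/-- homomorphisms -/
def liftQ {D : Type} [Group D] (E : Set (Pb X)) (u : X →* D) (v : Lq X → D)
    (h : ∀ s ∈ E, RQ u (v (s, false)) (v (s, true)) s) : QE X E →* D :=
  QuotientGroup.lift _ (Coprod.lift u (FreeGroup.lift v)) (by
    have h1 : Subgroup.normalClosure (rq '' E) ≤ (Coprod.lift u (FreeGroup.lift v)).ker := by
      apply Subgroup.normalClosure_le_normal
      rintro x ⟨s, hs, rfl⟩
      show Coprod.lift u (FreeGroup.lift v) (rq s) = 1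
      unfold rq
      have h2 := DFunLike.congr_fun (ev_comp (X := X) Coprod.inl
        (Coprod.inr (FreeGroup.of (s, false))) (Coprod.lift u (FreeGroup.lift v))) s.1
      rw [MonoidHom.comp_apply] at h2
      rw [map_mul, map_inv, h2, mul_inv_eq_one]
      have e1 : (Coprod.lift u (FreeGroup.lift v)).comp Coprod.inl = u := Coprod.lift_comp_inl _ _
      rw [e1]
      simp only [map_mul, map_inv, Coprod.lift_apply_inl, Coprod.lift_apply_inr,
        FreeGroup.lift_apply_of]
      exact h s hs
    intro x hx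
    exact h1 hx)

theorem liftQ_x {D : Type} [Group D] (E : Set (Pb X)) (u : X →* D) (v : Lq X → D)
    (h : ∀ s ∈ E, RQ u (v (s, false)) (v (s, true)) s) (x : X) :
    liftQ E u v h (xQ E x) = u x :=
  Coprod.lift_apply_inl u (FreeGroup.lift v) x

theorem liftQ_l {D : Type} [Group D] (E : Set (Pb X)) (u : X →* D) (v : Lq X → D)
    (h : ∀ s ∈ E, RQ u (v (s, false)) (v (s, true)) s) (s : Lq X) :
    liftQ E u v h (lQ E s) = v s := by
  show Coprod.lift u (FreeGroup.lift v) (Coprod.inr (FreeGroup.of s)) = _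
  rw [Coprod.lift_apply_inr, FreeGroup.lift_apply_of]

theorem Q_ext {D : Type} [Group D] {E : Set (Pb X)} {u v : QE X E →* D}
    (h1 : ∀ x, u (xQ E x) = v (xQ E x)) (h2 : ∀ s, u (lQ E s) = v (lQ E s)) : u = v := by
  apply QuotientGroup.monoidHom_ext
  apply Coprod.hom_ext
  · exact MonoidHom.ext h1
  · apply FreeGroup.ext_hom
    exact h2

/-- the natural maps -/
def qQ {E E' : Set (Pb X)} (h : E ⊆ E') : QE X E →* QE X E' :=
  liftQ E (xQ E') (lQ E') fun _ hs => rel_Q (h hs)

/-- the good problems -/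
def Good (s : Pb X) : Prop := NP s.1 ∧ (∀ v : Vert (pf X), s.1 • v ≠ v) ∧ s.2 ≠ 1

/-- the stages -/
theorem stage_Q {C : ∀ (G : Type) [Group G], Prop} (hC : Closed C) (hS : HasSolvable C)
    (hA : TreeClosed C) (hX : C X) (htf : IsTF X) (E : Set (Pb X)) (hE : E.Finite)
    (hne : ∀ s ∈ E, Good s) : C (QE X E) ∧ Function.Injective (xQ E) ∧ IsTF (QE X E) := by
  classical
  induction E, hE using Set.Finite.induction_on with
  | empty =>
    let e : QE X (∅ : Set (Pb X)) →* Gq X := liftQ ∅ Coprod.inl (fun s => Coprod.inr (FreeGroup.of s))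
      (fun s hs => absurd hs (Set.notMem_empty s))
    have he : Function.Injective e := by
      have h1 : (QuotientGroup.mk' _).comp e = MonoidHom.id (QE X (∅ : Set (Pb X))) := by
        apply Q_ext
        · intro x
          rw [MonoidHom.comp_apply, liftQ_x]
          rfl
        · intro s
          rw [MonoidHom.comp_apply, liftQ_l]
          rfl
      intro a b hab
      have h2 := DFunLike.congr_fun h1 a
      have h3 := DFunLike.congr_fun h1 b
      rw [MonoidHom.comp_apply, MonoidHom.id_apply] at h2 h3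
      rw [← h2, ← h3, hab]
    refine ⟨?_, ?_, ?_⟩
    · exact hC.of_injective _ _ e he (hC.coprod _ _ hX
        (Pool.Agent.Y179.SS.t_free C hC _))
    · intro a b hab
      have h1 := congrArg e hab
      rw [show e (xQ ∅ a) = Coprod.inl a from liftQ_x _ _ _ _ a,
        show e (xQ ∅ b) = Coprod.inl b from liftQ_x _ _ _ _ b] at h1
      exact Coprod.inl_injective h1
    · intro g n hn hg
      have h1 : (e g) ^ n = 1 := by rw [← map_pow, hg, map_one]
      exact he ((tf_coprod htf (tf_free _) _ n hn h1).trans (map_one e).symm)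
  | @insert s E hs _ ih =>
    obtain ⟨h1, h2, h3⟩ := ih fun s' hs' => hne s' (Or.inr hs')
    obtain ⟨hnp, hhyp, hval⟩ := hne s (Or.inl rfl)
    set y : QE X E := lQ E (s, false) with hy
    set u : QE X E := xQ E s.2 with hudef
    set v : QE X E := ev (xQ E) y s.1 with hvdef
    have hu1 : u ≠ 1 := fun h => hval (h2 (h.trans (map_one _).symm))
    -- the free letter
    let δ : QE X E →* FY (QE X E) := liftQ E ((of : QE X E →* FY (QE X E)).comp (xQ E))
      (fun l => if l = (s, false) then t else of (lQ E l)) (by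
        intro s' hs'
        have hne1 : ((s', false) : Lq X) ≠ (s, false) := by
          intro h
          rw [Prod.mk.injEq] at h
          exact hs (h.1 ▸ hs')
        have hne2 : ((s', true) : Lq X) ≠ (s, false) := by
          intro h
          rw [Prod.mk.injEq] at h
          exact Bool.noConfusion h.2
        rw [if_neg hne1, if_neg hne2]
        exact (rel_Q hs').map of)
    have hδx : ∀ x, δ (xQ E x) = of (xQ E x) := fun x => liftQ_x _ _ _ _ x
    have hδy : δ y = t := (liftQ_l _ _ _ _ _).trans (if_pos rfl)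
    have hδi : Function.Injective δ := by
      have h4 : (ev (MonoidHom.id (QE X E)) y).comp δ = MonoidHom.id _ := by
        apply Q_ext
        · intro x
          show ev (MonoidHom.id (QE X E)) y (δ (xQ E x)) = xQ E x
          rw [hδx, ev_of]; rfl
        · intro l
          show ev (MonoidHom.id (QE X E)) y (δ (lQ E l)) = lQ E l
          rw [show δ (lQ E l) = if l = (s, false) then t else of (lQ E l) from liftQ_l _ _ _ _ _]
          by_cases hl : l = (s, false)
          · rw [if_pos hl, ev_t, hl]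
          · rw [if_neg hl, ev_of]; rfl
      intro a b hab
      have h5 := DFunLike.congr_fun h4 a
      have h6 := DFunLike.congr_fun h4 b
      rw [MonoidHom.comp_apply, MonoidHom.id_apply] at h5 h6
      rw [← h5, ← h6, hab]
    have hδv : δ v = psi (xQ E) s.1 := by
      have h4 := DFunLike.congr_fun (ev_comp (xQ E) y δ) s.1
      rw [MonoidHom.comp_apply] at h4
      rw [hvdef, h4, hδy]
      have h5 : δ.comp (xQ E) = (of : QE X E →* FY (QE X E)).comp (xQ E) := MonoidHom.ext hδx
      rw [h5]
      rfl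
    have hc1 : ∀ (g : QE X E) (p q : ℤ), p ≠ 0 → g * v ^ p * g⁻¹ = v ^ q →
        g ∈ Subgroup.zpowers v := by
      intro g p q hp hg
      have h4 := congrArg δ hg
      rw [map_mul, map_mul, map_inv, map_zpow, map_zpow, hδv] at h4
      obtain ⟨k, hk⟩ := comm_cyc h2 htf h3 hnp hhyp (δ g) p q hp h4
      refine ⟨k, hδi ?_⟩
      show δ (v ^ k) = δ g
      rw [map_zpow, hδv]
      exact hk
    have hc2 : ∀ (g : QE X E) (p q : ℤ), p ≠ 0 → g * v ^ p * g⁻¹ ≠ u ^ q := by
      intro g p q hp hg
      have h4 := congrArg δ hg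
      rw [map_mul, map_mul, map_inv, map_zpow, hδv] at h4
      have h5 : δ (u ^ q) = of (u ^ q) := by
        rw [hudef, ← map_zpow, hδx]
      rw [h5] at h4
      exact not_ell h2 hhyp (δ g) p hp _ h4
    have hui : ¬ IsOfFinOrder u := by
      intro h
      obtain ⟨n, hn, h4⟩ := isOfFinOrder_iff_pow_eq_one.1 h
      exact hu1 (h3 u n hn h4)
    have hvi : ¬ IsOfFinOrder v := by
      intro h
      obtain ⟨n, hn, h4⟩ := isOfFinOrder_iff_pow_eq_one.1 h
      have h5 := h3 v n hn h4
      exact hc2 1 1 0 one_ne_zero (by rw [h5]; simp)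
    -- the isomorphism of the cyclic subgroups
    obtain ⟨φ, hφ⟩ : ∃ φ : Subgroup.zpowers u ≃* Subgroup.zpowers v,
        φ ⟨u, Subgroup.mem_zpowers u⟩ = ⟨v, Subgroup.mem_zpowers v⟩ := by
      have e1 : Function.Injective (zpowersHom (QE X E) u) := by
        intro p q hpq
        exact (injective_zpow_iff_not_isOfFinOrder.2 hui) hpq
      have e2 : Function.Injective (zpowersHom (QE X E) v) := by
        intro p q hpq
        exact (injective_zpow_iff_not_isOfFinOrder.2 hvi) hpq
      have r1 : (zpowersHom (QE X E) u).range = Subgroup.zpowers u := rfl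
      have r2 : (zpowersHom (QE X E) v).range = Subgroup.zpowers v := rfl
      let φ1 : Multiplicative ℤ ≃* Subgroup.zpowers u :=
        (MonoidHom.ofInjective e1).trans (MulEquiv.subgroupCongr r1)
      let φ2 : Multiplicative ℤ ≃* Subgroup.zpowers v :=
        (MonoidHom.ofInjective e2).trans (MulEquiv.subgroupCongr r2)
      refine ⟨φ1.symm.trans φ2, ?_⟩
      have e3 : φ1 (Multiplicative.ofAdd 1) = ⟨u, Subgroup.mem_zpowers u⟩ :=
        Subtype.ext (zpow_one u)
      have e4 : φ2 (Multiplicative.ofAdd 1) = ⟨v, Subgroup.mem_zpowers v⟩ :=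
        Subtype.ext (zpow_one v)
      rw [MulEquiv.trans_apply, ← e3, MulEquiv.symm_apply_apply, e4]
    let Γ : Type := HNNExtension (QE X E) (Subgroup.zpowers u) (Subgroup.zpowers v) φ
    have hΓ : C Γ := one_sided hC hS hA h1 hui φ hφ hc1 hc2
    have hrel : (t : Γ) * of u * t⁻¹ = of v := by
      have h4 := t_conj hφ 1
      rw [zpow_one, zpow_one] at h4
      exact h4
    let f : QE X (insert s E) →* Γ := liftQ _ ((of : QE X E →* Γ).comp (xQ E))
      (fun l => if l = (s, true) then t else of (lQ E l)) (by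
        intro s' hs'
        have hne0 : ∀ s'' : Pb X, ((s'', false) : Lq X) ≠ (s, true) := by
          intro s'' h
          rw [Prod.mk.injEq] at h
          exact Bool.noConfusion h.2
        by_cases hss : s' = s
        · subst hss
          rw [if_neg (hne0 _), if_pos rfl]
          unfold RQ
          rw [← ev_comp]
          exact hrel
        · have hsE : s' ∈ E := hs'.resolve_left hss
          have hne2 : ((s', true) : Lq X) ≠ (s, true) := by
            intro h
            rw [Prod.mk.injEq] at h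
            exact hss h.1
          rw [if_neg (hne0 _), if_neg hne2]
          exact (rel_Q hsE).map of)
    have hsub : E ⊆ insert s E := Set.subset_insert s E
    have hqx : ∀ x, qQ hsub (xQ E x) = xQ _ x := fun x => liftQ_x _ _ _ _ x
    have hql : ∀ l, qQ hsub (lQ E l) = lQ _ l := fun l => liftQ_l _ _ _ _ l
    let r : Γ →* QE X (insert s E) := HNNExtension.lift (qQ hsub) (lQ _ (s, true)) (by
      rintro ⟨w, k, rfl⟩
      have e1 : ((φ ⟨u ^ k, k, rfl⟩ : Subgroup.zpowers v) : QE X E) = v ^ k :=
        phi_zpow hφ _ k rfl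
      show lQ _ (s, true) * qQ hsub (u ^ k) = qQ hsub ((φ ⟨u ^ k, k, rfl⟩ : Subgroup.zpowers v) : QE X E) * lQ _ (s, true)
      rw [e1, map_zpow, map_zpow, ← mul_inv_eq_iff_eq_mul, ← conj_zpow]
      congr 1
      have h4 := rel_Q (E := insert s E) (Set.mem_insert s E)
      have h5 := DFunLike.congr_fun (ev_comp (xQ E) y (qQ hsub)) s.1
      rw [MonoidHom.comp_apply] at h5
      rw [hvdef, h5, hudef, hqx, hy, hql]
      have h6 : (qQ hsub).comp (xQ E) = xQ _ := MonoidHom.ext hqx
      rw [h6]
      exact h4)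
    have hrf : r.comp f = MonoidHom.id _ := by
      apply Q_ext
      · intro x
        show r (f (xQ _ x)) = xQ _ x
        rw [show f (xQ _ x) = of (xQ E x) from liftQ_x _ _ _ _ x]
        rw [show r (of (xQ E x)) = qQ hsub (xQ E x) from HNNExtension.lift_of _ _ _ _]
        exact hqx x
      · intro l
        show r (f (lQ _ l)) = lQ _ l
        rw [show f (lQ _ l) = (if l = (s, true) then t else of (lQ E l)) from liftQ_l _ _ _ _ l]
        by_cases hl : l = (s, true)
        · rw [if_pos hl, hl]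
          exact HNNExtension.lift_t _ _ _
        · rw [if_neg hl]
          rw [show r (of (lQ E l)) = qQ hsub (lQ E l) from HNNExtension.lift_of _ _ _ _]
          exact hql l
    have hf : Function.Injective f := by
      intro x y hxy
      have e1 := DFunLike.congr_fun hrf x
      have e2 := DFunLike.congr_fun hrf y
      rw [MonoidHom.comp_apply, MonoidHom.id_apply] at e1 e2
      rw [← e1, ← e2, hxy]
    refine ⟨hC.of_injective _ _ f hf hΓ, ?_, ?_⟩
    · intro x x' hxx
      have e1 := congrArg f hxx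
      rw [show f (xQ _ x) = of (xQ E x) from liftQ_x _ _ _ _ x,
        show f (xQ _ x') = of (xQ E x') from liftQ_x _ _ _ _ x'] at e1
      exact h2 (of_injective _ e1)
    · intro g n hn hg
      have e1 : (f g) ^ n = 1 := by rw [← map_pow, hg, map_one]
      exact hf ((tf_hnn h3 _ n hn e1).trans (map_one f).symm)

/-- the relations of an element of the normal closure -/
theorem nc_finQ (E : Set (Pb X)) (x : Gq X) (hx : x ∈ Subgroup.normalClosure (rq '' E)) :
    ∃ E0 : Set (Pb X), E0.Finite ∧ E0 ⊆ E ∧ x ∈ Subgroup.normalClosure (rq '' E0) := by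
  have hmono : ∀ {E1 E2 : Set (Pb X)}, E1 ⊆ E2 →
      Subgroup.normalClosure (rq '' E1) ≤ Subgroup.normalClosure (rq '' E2) :=
    fun h => Subgroup.normalClosure_mono (Set.image_mono h)
  induction hx using Subgroup.closure_induction with
  | mem x hx =>
    obtain ⟨y, ⟨s, hs, rfl⟩, hc⟩ := Group.mem_conjugatesOfSet_iff.1 hx
    refine ⟨{s}, Set.finite_singleton s, Set.singleton_subset_iff.2 hs, ?_⟩
    apply Subgroup.subset_closure
    exact Group.mem_conjugatesOfSet_iff.2 ⟨_, ⟨s, rfl, rfl⟩, hc⟩
  | one => exact ⟨∅, Set.finite_empty, Set.empty_subset _, Subgroup.one_mem _⟩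
  | mul x y _ _ hx hy =>
    obtain ⟨E1, h1, h1', h1''⟩ := hx
    obtain ⟨E2, h2, h2', h2''⟩ := hy
    exact ⟨E1 ∪ E2, h1.union h2, Set.union_subset h1' h2',
      Subgroup.mul_mem _ (hmono Set.subset_union_left h1'') (hmono Set.subset_union_right h2'')⟩
  | inv x _ hx =>
    obtain ⟨E1, h1, h1', h1''⟩ := hx
    exact ⟨E1, h1, h1', Subgroup.inv_mem _ h1''⟩

theorem qQ_mk {E E' : Set (Pb X)} (h : E ⊆ E') (x : Gq X) :
    qQ h (QuotientGroup.mk' _ x) = QuotientGroup.mk' (Subgroup.normalClosure (rq '' E')) x := by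
  have h1 : (qQ h).comp (QuotientGroup.mk' _) =
      QuotientGroup.mk' (Subgroup.normalClosure (rq '' E')) := by
    apply Coprod.hom_ext
    · ext x
      exact liftQ_x E (xQ E') (lQ E') (fun _ hs => rel_Q (h hs)) x
    · apply FreeGroup.ext_hom
      intro s
      exact liftQ_l E (xQ E') (lQ E') (fun _ hs => rel_Q (h hs)) s
  exact DFunLike.congr_fun h1 x

/-- the group with all relations -/
theorem all_Q {C : ∀ (G : Type) [Group G], Prop} (hC : Closed C) (hS : HasSolvable C)
    (hA : TreeClosed C) (hX : C X) (htf : IsTF X) (E : Set (Pb X)) (hne : ∀ s ∈ E, Good s) :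
    C (QE X E) ∧ Function.Injective (xQ E) ∧ IsTF (QE X E) := by
  have hker : ∀ (E0 : Set (Pb X)) (_ : E0 ⊆ E) (x : Gq X), E0.Finite →
      (QuotientGroup.mk' (Subgroup.normalClosure (rq '' E))) x = 1 →
      ∃ (E1 : Set (Pb X)) (_ : E1.Finite) (_ : E1 ⊆ E) (_ : E0 ⊆ E1),
        (QuotientGroup.mk' (Subgroup.normalClosure (rq '' E1))) x = 1 := by
    intro E0 h0 x hf hx
    obtain ⟨E1, h1, h1', h1''⟩ := nc_finQ E x ((QuotientGroup.eq_one_iff x).1 hx)
    refine ⟨E0 ∪ E1, hf.union h1, Set.union_subset h0 h1', Set.subset_union_left, ?_⟩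
    exact (QuotientGroup.eq_one_iff x).2
      (Subgroup.normalClosure_mono (Set.image_mono Set.subset_union_right) h1'')
  have hst : ∀ E1 : Set (Pb X), E1.Finite → E1 ⊆ E → C (QE X E1) ∧ Function.Injective (xQ E1) ∧
      IsTF (QE X E1) := fun E1 h1 h2 =>
    stage_Q hC hS hA hX htf E1 h1 fun s hs => hne s (h2 hs)
  refine ⟨?_, ?_, ?_⟩
  · have : Nonempty {F : Set (Pb X) // F.Finite ∧ F ⊆ E} :=
      ⟨⟨∅, Set.finite_empty, Set.empty_subset _⟩⟩
    refine hC.colim {F : Set (Pb X) // F.Finite ∧ F ⊆ E}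
      (fun F F' => ⟨⟨F.1 ∪ F'.1, F.2.1.union F'.2.1, Set.union_subset F.2.2 F'.2.2⟩,
        Set.subset_union_left, Set.subset_union_right⟩)
      (fun F => QE X F.1) (fun F F' h => qQ h) (QE X E) (fun F => qQ F.2.2) ?_ ?_ ?_ ?_ ?_ ?_
    · intro F h x
      obtain ⟨x, rfl⟩ := QuotientGroup.mk'_surjective _ x
      rw [qQ_mk]
    · intro F F' F'' h h' x
      obtain ⟨x, rfl⟩ := QuotientGroup.mk'_surjective _ x
      rw [qQ_mk, qQ_mk, qQ_mk]
    · intro F F' h x
      obtain ⟨x, rfl⟩ := QuotientGroup.mk'_surjective _ x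
      rw [qQ_mk, qQ_mk, qQ_mk]
    · intro y
      obtain ⟨x, rfl⟩ := QuotientGroup.mk'_surjective _ y
      exact ⟨⟨∅, Set.finite_empty, Set.empty_subset _⟩, QuotientGroup.mk' _ x, qQ_mk _ x⟩
    · intro F x hx
      obtain ⟨x, rfl⟩ := QuotientGroup.mk'_surjective _ x
      rw [qQ_mk] at hx
      obtain ⟨E1, h1, h2, h3, h4⟩ := hker F.1 F.2.2 x F.2.1 hx
      exact ⟨⟨E1, h1, h2⟩, h3, by rw [qQ_mk, h4]⟩
    · intro F
      exact (hst F.1 F.2.1 F.2.2).1
  · rw [injective_iff_map_eq_one]
    intro x hx
    obtain ⟨E1, h1, h2, _, h4⟩ := hker ∅ (Set.empty_subset _) (Coprod.inl x) Set.finite_empty hx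
    exact (hst E1 h1 h2).2.1 (h4.trans (map_one _).symm)
  · intro g n hn hg
    obtain ⟨x, rfl⟩ := QuotientGroup.mk'_surjective _ g
    rw [← map_pow] at hg
    obtain ⟨E1, h1, h2, _, h4⟩ := hker ∅ (Set.empty_subset _) (x ^ n) Set.finite_empty hg
    rw [map_pow] at h4
    have h5 := (hst E1 h1 h2).2.2 _ n hn h4
    rw [← qQ_mk h2, h5, map_one]

/-- a letter is not trivial -/
theorem lQ_ne_one (E : Set (Pb X)) (hE : ((1 : FY X), (1 : X)) ∉ E) : lQ E ((1, 1), false) ≠ 1 := by
  classical
  let f : QE X E →* Multiplicative ℤ := liftQ E 1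
    (fun l => if l = ((1, 1), false) then Multiplicative.ofAdd 1 else 1) (by
      intro s hs
      have hne : s ≠ (1, 1) := fun h => hE (h ▸ hs)
      have h1 : ((s, false) : Lq X) ≠ ((1, 1), false) := by
        intro h
        rw [Prod.mk.injEq] at h
        exact hne h.1
      have h2 : ((s, true) : Lq X) ≠ ((1, 1), false) := by
        intro h
        rw [Prod.mk.injEq] at h
        exact hne h.1
      rw [if_neg h1, if_neg h2]
      unfold RQ
      have h3 : ev (1 : X →* Multiplicative ℤ) 1 = 1 := by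
        apply HNNExtension.hom_ext
        · ext x
          show ev (1 : X →* Multiplicative ℤ) 1 (of x) = 1
          rw [ev_of]; rfl
        · show ev (1 : X →* Multiplicative ℤ) 1 t = 1
          rw [ev_t]
      rw [h3]
      simp)
  intro h
  have h1 := congrArg f h
  rw [show f (lQ E ((1, 1), false)) = _ from liftQ_l _ _ _ _ _, if_pos rfl, map_one f] at h1
  have h2 : (1 : ℤ) = 0 := congrArg Multiplicative.toAdd h1
  exact one_ne_zero h2

end word

end Pool.Agent.H4.OS
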